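import Mathlib

/-!
# Deciding unirationality over the algebraic numbers: one integer polynomial in many variables

An algorithm for unirationality over `ℚ̄` needs only be given for the hypersurfaces `f = 0`, `f` an
absolutely irreducible polynomial with integer coefficients, of dimensions in a sparse set. A
variety `X` over `ℚ̄` has a model over a number field `K`; the Weil restriction of (a smooth
affine open part of) the model is a geometrically integral variety over `ℚ`, birational to a
hypersurface `f = 0`, which becomes the product of the conjugates of `X` over `ℚ̄`. A product is
unirational if and only if the factors are, and the conjugates of `X` are unirational if and only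
if `X` is. Regarding `f` as a polynomial in more variables multiplies the hypersurface by an
affine space.
-/

set_option autoImplicit false

namespace Pool.Agent.Results.MP_1dc56d_ag.IntegerPolynomials

/-- `Var`: presentations of varieties over `ℚ̄`; `Poly`: absolutely irreducible polynomials
`f` with integer coefficients, with the number of variables; `dim f`: the dimension of the
hypersurface `f = 0`; `zero f`: this hypersurface over `ℚ̄`; `more f m`: the polynomial `f` in `m`
more variables; `weil X`: a polynomial for the Weil restriction of a model of `X` over a number
field; `conjugates X`: the conjugates of `X` over this field. -/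
structure Setting where
  Var : Type
  Poly : Type
  varCode : Primcodable Var
  polyCode : Primcodable Poly
  Unirational : Var → Prop
  dim : Poly → ℕ
  zero : Poly → Var
  more : Poly → ℕ → Poly
  weil : Var → Poly
  conjugates : Var → List Var

attribute [instance] Setting.varCode Setting.polyCode

/-- The facts used: the constructions are computable; the hypersurface of `weil X` is birational
over `ℚ̄` to the product of the conjugates of `X`, so it is unirational if and only if they are;
`X` is one of its conjugates and conjugates are unirational simultaneously; the hypersurface of
`more f m` is the product with `𝔸ᵐ`. -/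
structure Facts (A : Setting) : Prop where
  dim_computable : Computable A.dim
  zero_computable : Computable A.zero
  more_computable : Computable₂ A.more
  weil_computable : Computable A.weil
  weil_fibre : ∀ X, A.Unirational (A.zero (A.weil X)) ↔
    ∀ Y ∈ A.conjugates X, A.Unirational Y
  mem_conjugates : ∀ X, X ∈ A.conjugates X
  conjugate : ∀ X, ∀ Y ∈ A.conjugates X, A.Unirational Y ↔ A.Unirational X
  dim_more : ∀ f m, A.dim (A.more f m) = A.dim f + m
  unirational_more : ∀ f m, A.Unirational (A.zero (A.more f m)) ↔ A.Unirational (A.zero f)

/-- There is an algorithm which decides, for the polynomials `f` with `dim f` a value of `g`,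
whether the hypersurface `f = 0` is unirational over `ℚ̄`. -/
def DecidableInDimensions (A : Setting) (g : ℕ → ℕ) : Prop :=
  ∃ a : A.Poly → Bool, Computable a ∧
    ∀ f, (∃ n, A.dim f = g n) → (a f = true ↔ A.Unirational (A.zero f))

/-- Let `g` be a computable function with `n ≤ g n`. Unirationality of varieties over `ℚ̄` is
decidable if and only if it is decidable for the hypersurfaces `f = 0` over `ℚ̄` given by absolutely
irreducible polynomials `f` with integer coefficients whose dimension is a value of `g`. -/
theorem result (A : Setting) (h : Facts A) (g : ℕ → ℕ) (hg : Computable g)
    (hn : ∀ n, n ≤ g n) :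
    ComputablePred A.Unirational ↔ DecidableInDimensions A g := by
  classical
  constructor
  · intro hc
    obtain ⟨d, hd⟩ := hc
    refine ⟨fun f => decide (A.Unirational (A.zero f)), ?_, fun f _ => by simp⟩
    have h1 : Computable fun f => @decide (A.Unirational (A.zero f)) (d (A.zero f)) :=
      hd.comp h.zero_computable
    refine h1.of_eq fun f => ?_
    congr
  · rintro ⟨a, ha, hf⟩
    have key : ∀ X, a (A.more (A.weil X) (g (A.dim (A.weil X)) - A.dim (A.weil X))) = true ↔
        A.Unirational X := by
      intro X
      rw [hf _ ⟨A.dim (A.weil X), by rw [h.dim_more]; have := hn (A.dim (A.weil X)); omega⟩,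
        h.unirational_more, h.weil_fibre]
      constructor
      · intro h1
        exact h1 X (h.mem_conjugates X)
      · intro h1 Y hY
        exact (h.conjugate X Y hY).2 h1
    have hdw : Computable fun X => A.dim (A.weil X) := h.dim_computable.comp h.weil_computable
    have hsub : Computable fun X => g (A.dim (A.weil X)) - A.dim (A.weil X) :=
      (Primrec.nat_sub.to_comp).comp (hg.comp hdw) hdw
    have htot : Computable fun X =>
        a (A.more (A.weil X) (g (A.dim (A.weil X)) - A.dim (A.weil X))) :=
      ha.comp (h.more_computable.comp h.weil_computable hsub)
    refine ⟨fun X => Classical.propDecidable _, ?_⟩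
    refine htot.of_eq fun X => ?_
    have := key X
    by_cases hX : A.Unirational X
    · rw [this.2 hX]; simp [hX]
    · have h2 : a (A.more (A.weil X) (g (A.dim (A.weil X)) - A.dim (A.weil X))) ≠ true :=
        fun h3 => hX (this.1 h3)
      rw [eq_false_of_ne_true h2]; simp [hX]

end Pool.Agent.Results.MP_1dc56d_ag.IntegerPolynomials
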