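import Pool.Agent.U431.RA.Uni

/-!
MP_1dc56d_ag, Q1 and Q2: rationality and unirationality of the Kummer covers of projective space
along arrangements of hyperplanes which are stable under reflections.
-/

set_option autoImplicit false

namespace Pool.Agent.Results.MP_1dc56d_ag.KummerReflection

open Pool.Agent.U431.RA.Uni

/-- Let `k` be an algebraically closed field of characteristic zero (for instance the field of the
algebraic numbers), and let `ℓ 1, …, ℓ r` be linear forms in `n + 1` variables which define different
hyperplanes with intersection `0`, such that the set of these hyperplanes is stable under reflections
in each of them (for instance the mirrors of a finite real or complex reflection group). Let `m ≥ 3`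
and let `K` be the function field of an irreducible component `X` of the Kummer cover
`y j ^ m = ℓ j (x)` of projective `n`-space. The following are equivalent: `X` is rational; `X` is
unirational; the `ℓ j` are linearly independent (so `r = n + 1` and all the reflections commute). -/
theorem result {k : Type} [Field k] [IsAlgClosed k] [CharZero k] {n r m : ℕ} (hm : 3 ≤ m)
    {ℓ : Fin r → Form k n} (hℓ : ReflectionArrangement ℓ) {K : Type} [Field K] [Algebra k K]
    {x : Fin (n + 1) → K} {y : Fin r → K} (hK : FunctionField ℓ m x y) :
    [Rational k K, Unirational k K, LinearIndependent k ℓ].TFAE :=
  tfae hm hℓ hK

end Pool.Agent.Results.MP_1dc56d_ag.KummerReflection
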